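import Pool.Agent.Q139.Pon.Defs

/-!
# Poncelet triangles in the model of the unit circle
-/

set_option autoImplicit false

namespace Pool.Agent.Q139.Pon

open ComplexConjugate

/-- a quadratic polynomial with three distinct roots is zero -/
theorem quad3 {x y w z1 z2 z3 : ℂ} (h12 : z1 ≠ z2) (h13 : z1 ≠ z3) (h23 : z2 ≠ z3)
    (e1 : x * z1 ^ 2 + y * z1 + w = 0) (e2 : x * z2 ^ 2 + y * z2 + w = 0)
    (e3 : x * z3 ^ 2 + y * z3 + w = 0) : x = 0 ∧ y = 0 ∧ w = 0 := by
  have f1 : x * (z1 + z2) + y = 0 := by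
    have : (z1 - z2) * (x * (z1 + z2) + y) = 0 := by linear_combination e1 - e2
    exact (mul_eq_zero.1 this).resolve_left (sub_ne_zero.2 h12)
  have f2 : x * (z1 + z3) + y = 0 := by
    have : (z1 - z3) * (x * (z1 + z3) + y) = 0 := by linear_combination e1 - e3
    exact (mul_eq_zero.1 this).resolve_left (sub_ne_zero.2 h13)
  have f3 : x = 0 := by
    have : (z2 - z3) * x = 0 := by linear_combination f1 - f2
    exact (mul_eq_zero.1 this).resolve_left (sub_ne_zero.2 h23)
  subst f3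
  have f4 : y = 0 := by linear_combination f1
  subst f4
  exact ⟨rfl, rfl, by linear_combination e1⟩

theorem mul_conj_of_norm {z : ℂ} (h : ‖z‖ = 1) : z * conj z = 1 := by
  rw [Complex.mul_conj, Complex.normSq_eq_norm_sq, h]
  norm_num

theorem norm_sq_eq (z : ℂ) : ((‖z‖ ^ 2 : ℝ) : ℂ) = z * conj z := by
  rw [Complex.mul_conj, Complex.normSq_eq_norm_sq]

theorem norm_of_mul_conj {z : ℂ} (h : z * conj z = 1) : ‖z‖ = 1 := by
  rw [← norm_sq_eq] at h
  have h1 : ‖z‖ ^ 2 = 1 := by exact_mod_cast h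
  have h2 := norm_nonneg z
  nlinarith

/-- three distinct points of the unit circle, with their elementary symmetric functions -/
structure Tri (z1 z2 z3 s1 s2 l : ℂ) : Prop where
  n1 : ‖z1‖ = 1
  n2 : ‖z2‖ = 1
  n3 : ‖z3‖ = 1
  h12 : z1 ≠ z2
  h13 : z1 ≠ z3
  h23 : z2 ≠ z3
  e1 : s1 = z1 + z2 + z3
  e2 : s2 = z1 * z2 + z2 * z3 + z3 * z1
  e3 : l = z1 * z2 * z3

namespace Tri

variable {z1 z2 z3 s1 s2 l : ℂ}

theorem cub1 (T : Tri z1 z2 z3 s1 s2 l) : z1 ^ 3 - s1 * z1 ^ 2 + s2 * z1 - l = 0 := by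
  rw [T.e1, T.e2, T.e3]; ring

theorem cub2 (T : Tri z1 z2 z3 s1 s2 l) : z2 ^ 3 - s1 * z2 ^ 2 + s2 * z2 - l = 0 := by
  rw [T.e1, T.e2, T.e3]; ring

theorem cub3 (T : Tri z1 z2 z3 s1 s2 l) : z3 ^ 3 - s1 * z3 ^ 2 + s2 * z3 - l = 0 := by
  rw [T.e1, T.e2, T.e3]; ring

theorem nl (T : Tri z1 z2 z3 s1 s2 l) : ‖l‖ = 1 := by
  rw [T.e3, norm_mul, norm_mul, T.n1, T.n2, T.n3]; norm_num

/-- `conj s1 = conj l * s2` -/
theorem conj_s1 (T : Tri z1 z2 z3 s1 s2 l) : conj s1 = conj l * s2 := by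
  have a1 := mul_conj_of_norm T.n1
  have a2 := mul_conj_of_norm T.n2
  have a3 := mul_conj_of_norm T.n3
  rw [T.e1, T.e2, T.e3]
  simp only [map_add, map_mul]
  linear_combination (-(conj z3) - z3 * conj z3 * conj z2) * a1 * 0 +
    (- conj z3 * (z2 * conj z2) - conj z2 * (z3 * conj z3)) * a1 +
    (- conj z3 - conj z1 * (z3 * conj z3)) * a2 + (- conj z2 - conj z1) * a3

theorem conj_s2 (T : Tri z1 z2 z3 s1 s2 l) : conj s2 = conj l * s1 := by
  have h := congrArg conj T.conj_s1
  have hl := mul_conj_of_norm T.nl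
  rw [Complex.conj_conj, map_mul, Complex.conj_conj] at h
  rw [h]
  linear_combination (- conj s2) * hl

end Tri

/-- the general value of the distance function in the model -/
theorem dist_formula (E : Ellipse) (N x : ℂ) :
    ((‖E.pt x - N‖ ^ 2 : ℝ) : ℂ) =
      E.a * conj E.b * x ^ 2 + (E.a * conj E.a + E.b * conj E.b) * (x * conj x) +
        E.b * conj E.a * conj x ^ 2 + (E.a * conj (E.c - N) + conj E.b * (E.c - N)) * x +
        (conj E.a * (E.c - N) + E.b * conj (E.c - N)) * conj x + (E.c - N) * conj (E.c - N) := by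
  rw [norm_sq_eq, Ellipse.pt]
  simp only [map_add, map_mul, map_sub, Complex.conj_conj]
  ring

/-- the power function of the circumcircle in the model -/
theorem power_formula (E : Ellipse) {z1 z2 z3 s1 s2 l : ℂ} (T : Tri z1 z2 z3 s1 s2 l) {N : ℂ}
    (hN : IsCentre (E.pt z1) (E.pt z2) (E.pt z3) N) (x : ℂ) :
    ((‖E.pt x - N‖ ^ 2 - ‖E.pt z1 - N‖ ^ 2 : ℝ) : ℂ) =
      E.a * conj E.b * x ^ 2 + (E.a * conj E.a + E.b * conj E.b) * (x * conj x) +
        E.b * conj E.a * conj x ^ 2 - (E.a * conj E.b * s1 + E.b * conj E.a * conj l) * x -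
        (E.b * conj E.a * conj s1 + E.a * conj E.b * l) * conj x +
        (E.a * conj E.b * s2 + E.b * conj E.a * conj s2) -
        (E.a * conj E.a + E.b * conj E.b) := by
  obtain ⟨hN1, hN2⟩ := hN
  set a := E.a
  set b := E.b
  set h := E.c - N with hh
  set γ := a * conj h + conj b * h with hγ
  have cγ : conj γ = conj a * h + b * conj h := by
    rw [hγ]
    simp only [map_add, map_mul, Complex.conj_conj]
  set ρ : ℂ := ((‖E.pt z1 - N‖ ^ 2 : ℝ) : ℂ) with hρ
  have d1 : ((‖E.pt z1 - N‖ ^ 2 : ℝ) : ℂ) = ρ := rfl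
  have d2 : ((‖E.pt z2 - N‖ ^ 2 : ℝ) : ℂ) = ρ := by rw [hρ, hN1]
  have d3 : ((‖E.pt z3 - N‖ ^ 2 : ℝ) : ℂ) = ρ := by rw [hρ, hN2]
  rw [dist_formula] at d1 d2 d3
  have a1 := mul_conj_of_norm T.n1
  have a2 := mul_conj_of_norm T.n2
  have a3 := mul_conj_of_norm T.n3
  set Γ := γ + a * conj b * s1 + b * conj a * conj l with hΓ
  have cΓ : conj Γ = conj γ + b * conj a * conj s1 + a * conj b * l := by
    rw [hΓ]
    simp only [map_add, map_mul, Complex.conj_conj]
    ring
  set e := a * conj a + b * conj b + h * conj h - ρ - a * conj b * s2 - b * conj a * conj s2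
    with he
  -- the values at the vertices
  have key : ∀ z : ℂ, z * conj z = 1 → z ^ 3 - s1 * z ^ 2 + s2 * z - l = 0 →
      a * conj b * z ^ 2 + (a * conj a + b * conj b) * (z * conj z) +
        b * conj a * conj z ^ 2 + γ * z +
        (conj a * h + b * conj h) * conj z + h * conj h = ρ →
      Γ * z ^ 2 + e * z + conj Γ = 0 := by
    intro z hz hc hd
    have hcc := congrArg conj hc
    simp only [map_add, map_mul, map_sub, map_pow, map_zero] at hcc
    rw [cΓ, cγ, hΓ, he]
    linear_combination z * hd - a * conj b * hc - b * conj a * z ^ 2 * hcc +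
      (-((a * conj a + b * conj b) * z + b * conj a * conj z + (conj a * h + b * conj h)) +
        b * conj a * (conj z * (z * conj z + 1) - conj s1 * (z * conj z + 1) +
          conj s2 * z)) * hz
  obtain ⟨g1, g2, g3⟩ := quad3 T.h12 T.h13 T.h23 (key z1 a1 T.cub1 d1) (key z2 a2 T.cub2 d2)
    (key z3 a3 T.cub3 d3)
  have hsub : ((‖E.pt x - N‖ ^ 2 - ‖E.pt z1 - N‖ ^ 2 : ℝ) : ℂ) =
      ((‖E.pt x - N‖ ^ 2 : ℝ) : ℂ) - ρ := by
    rw [hρ]
    push_cast
    ring
  rw [hsub, dist_formula]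
  have g1' : γ + a * conj b * s1 + b * conj a * conj l = 0 := g1
  have g2' : a * conj a + b * conj b + h * conj h - ρ - a * conj b * s2 - b * conj a * conj s2 = 0 :=
    g2
  have g3' : (conj a * h + b * conj h) + b * conj a * conj s1 + a * conj b * l = 0 := by
    rw [← cγ, ← cΓ]
    exact g3
  have g4' : (a * conj h + conj b * h) + a * conj b * s1 + b * conj a * conj l = 0 := g1'
  linear_combination x * g4' + conj x * g3' + g2'

/-- the circumcentre exists -/
theorem centre_exists (E : Ellipse) {z1 z2 z3 s1 s2 l : ℂ} (T : Tri z1 z2 z3 s1 s2 l) :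
    ∃ N, IsCentre (E.pt z1) (E.pt z2) (E.pt z3) N := by
  set a := E.a with ha
  set b := E.b with hb
  have hΔ : a * conj a - b * conj b ≠ 0 := by
    rw [← norm_sq_eq, ← norm_sq_eq, ← Complex.ofReal_sub, Ne, Complex.ofReal_eq_zero]
    have := E.lt
    nlinarith [norm_nonneg b]
  set γ := -(a * conj b * s1 + b * conj a * conj l) with hγ
  have cγ : conj γ = -(b * conj a * conj s1 + a * conj b * l) := by
    rw [hγ]
    simp only [map_neg, map_add, map_mul, Complex.conj_conj]
    ring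
  set h := (a * conj γ - b * γ) / (a * conj a - b * conj b) with hh
  have ch : conj h = (conj a * γ - conj b * conj γ) / (a * conj a - b * conj b) := by
    rw [hh]
    simp only [map_div₀, map_sub, map_mul, Complex.conj_conj]
    congr 1
    ring
  have e1 : a * conj h + conj b * h = γ := by
    rw [ch, hh, ← mul_div_assoc, ← mul_div_assoc, ← add_div, div_eq_iff hΔ]
    ring
  have e2 : conj a * h + b * conj h = conj γ := by
    rw [ch, hh, ← mul_div_assoc, ← mul_div_assoc, ← add_div, div_eq_iff hΔ]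
    ring
  have key : ∀ z : ℂ, z * conj z = 1 → z ^ 3 - s1 * z ^ 2 + s2 * z - l = 0 →
      ((‖E.pt z - (E.c - h)‖ ^ 2 : ℝ) : ℂ) = a * conj a + b * conj b + h * conj h -
        a * conj b * s2 - b * conj a * conj s2 := by
    intro z hz hc
    have hcc := congrArg conj hc
    simp only [map_add, map_mul, map_sub, map_pow, map_zero] at hcc
    rw [dist_formula, sub_sub_cancel, ← ha, ← hb, e1, e2, cγ, hγ]
    linear_combination a * conj b * conj z * hc + b * conj a * z * hcc +
      ((a * conj a + b * conj b) + 0 * z) * hz +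
      (- a * conj b * (z ^ 2 - s1 * z + s2) - b * conj a *
        (conj z ^ 2 - conj s1 * conj z + conj s2)) * hz
  have a1 := key z1 (mul_conj_of_norm T.n1) T.cub1
  have a2 := key z2 (mul_conj_of_norm T.n2) T.cub2
  have a3 := key z3 (mul_conj_of_norm T.n3) T.cub3
  have b2 := Complex.ofReal_injective (a1.trans a2.symm)
  have b3 := Complex.ofReal_injective (a1.trans a3.symm)
  exact ⟨E.c - h, (pow_left_inj₀ (norm_nonneg _) (norm_nonneg _) two_ne_zero).1 b2,
    (pow_left_inj₀ (norm_nonneg _) (norm_nonneg _) two_ne_zero).1 b3⟩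

end Pool.Agent.Q139.Pon
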