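import Mathlib

/-!
# Poncelet triangles: definitions

The Euclidean plane is `ℂ`.
-/

set_option autoImplicit false

namespace Pool.Agent.Q139.Pon

open ComplexConjugate

/-- An ellipse: the image of the unit circle under the affine bijection
`w ↦ a w + b conj(w) + c`, `|b| < |a|`. (Every ellipse is of this form; its semi-axes are
`|a| + |b|` and `|a| - |b|`.) -/
structure Ellipse where
  /-- coefficient of `w` -/
  a : ℂ
  /-- coefficient of `conj w` -/
  b : ℂ
  /-- the centre -/
  c : ℂ
  lt : ‖b‖ < ‖a‖

/-- The affine bijection defining the ellipse. -/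
def Ellipse.pt (E : Ellipse) (w : ℂ) : ℂ := E.a * w + E.b * conj w + E.c

/-- The points of the ellipse. -/
def Ellipse.curve (E : Ellipse) : Set ℂ := {z | ∃ w : ℂ, ‖w‖ = 1 ∧ z = E.pt w}

/-- The points strictly inside the ellipse. -/
def Ellipse.inside (E : Ellipse) : Set ℂ := {z | ∃ w : ℂ, ‖w‖ < 1 ∧ z = E.pt w}

/-- The direction `d ≠ 0` is that of an axis of `E`: the reflection in the line through the centre
with direction `d` maps `E` to itself. -/
def Ellipse.IsAxis (E : Ellipse) (d : ℂ) : Prop :=
  d ≠ 0 ∧ ∀ z ∈ E.curve, E.c + d / conj d * conj (z - E.c) ∈ E.curve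

/-- The axes of `E'` are parallel to the axes of `E`: there is a common direction of axes. -/
def AxisAligned (E E' : Ellipse) : Prop := ∃ d : ℂ, E.IsAxis d ∧ E'.IsAxis d

/-- The line through the distinct points `A` and `B` is tangent to the ellipse: it meets it in
exactly one point. -/
def Tangent (E : Ellipse) (A B : ℂ) : Prop :=
  ∃! z : ℂ, z ∈ E.curve ∧ ∃ t : ℝ, z = A + t * (B - A)

/-- `A, B, C` are the vertices of a triangle inscribed in `E` with sides tangent to `E'`. -/
structure Poncelet (E E' : Ellipse) (A B C : ℂ) : Prop where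
  memA : A ∈ E.curve
  memB : B ∈ E.curve
  memC : C ∈ E.curve
  neAB : A ≠ B
  neBC : B ≠ C
  neCA : C ≠ A
  tanAB : Tangent E' A B
  tanBC : Tangent E' B C
  tanCA : Tangent E' C A

/-- The point `N` is the centre of the circle through `A`, `B`, `C`. -/
def IsCentre (A B C N : ℂ) : Prop := ‖A - N‖ = ‖B - N‖ ∧ ‖A - N‖ = ‖C - N‖

/-- `κ` is the power of the point `P` with respect to the circle through `A`, `B`, `C`: the circle
exists, and `κ = |PN|² - r²` for its centre `N` and its radius `r = |AN|`. -/
def IsPower (A B C P : ℂ) (κ : ℝ) : Prop :=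
  (∃ N : ℂ, IsCentre A B C N) ∧ ∀ N : ℂ, IsCentre A B C N → ‖P - N‖ ^ 2 - ‖A - N‖ ^ 2 = κ

/-- `κ` is the power of the point `P` with respect to the circumcircle of the triangle `ABC`. -/
def CircumPower (A B C P : ℂ) (κ : ℝ) : Prop := IsPower A B C P κ

/-- `κ` is the power of the point `P` with respect to the Euler circle of the triangle `ABC`, the
circle through the midpoints of the sides. -/
def EulerPower (A B C P : ℂ) (κ : ℝ) : Prop :=
  IsPower ((B + C) / 2) ((C + A) / 2) ((A + B) / 2) P κ

end Pool.Agent.Q139.Pon
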