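import Pool.Agent.Q139.Pon.Main

/-!
# The power with respect to the Euler circle: the generic case
-/

set_option autoImplicit false

namespace Pool.Agent.Q139.Pon

open ComplexConjugate

variable {E E' : Ellipse} {u v k : ℂ}

/-- points on a line -/
theorem collinear_of_re {D N1 N2 N3 : ℂ} (hD : D ≠ 0) {m : ℝ} (h1 : (conj D * N1).re = m)
    (h2 : (conj D * N2).re = m) (h3 : (conj D * N3).re = m) : Collinear ℝ {N1, N2, N3} := by
  rw [collinear_iff_of_mem (p₀ := N1) (by simp)]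
  refine ⟨Complex.I * D, ?_⟩
  have key : ∀ N : ℂ, (conj D * N).re = m → ∃ r : ℝ, N = r • (Complex.I * D) +ᵥ N1 := by
    intro N hN
    have hDD : conj D * D ≠ 0 := mul_ne_zero ((map_ne_zero _).2 hD) hD
    have h0 : (conj D * (N - N1)).re = 0 := by
      rw [mul_sub, Complex.sub_re, hN, h1, sub_self]
    have h4 : conj D * (N - N1) = Complex.I * ((conj D * (N - N1)).im : ℂ) := by
      apply Complex.ext
      · rw [h0]; simp
      · simp
    have h5 : conj D * D = ((‖D‖ ^ 2 : ℝ) : ℂ) := by rw [norm_sq_eq]; ring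
    have h6 : (‖D‖ ^ 2 : ℝ) ≠ 0 := by
      have : ‖D‖ ≠ 0 := norm_ne_zero_iff.2 hD
      positivity
    refine ⟨(conj D * (N - N1)).im / ‖D‖ ^ 2, ?_⟩
    rw [vadd_eq_add, Complex.real_smul]
    have h7 : N - N1 = (((conj D * (N - N1)).im / ‖D‖ ^ 2 : ℝ) : ℂ) * (Complex.I * D) := by
      refine mul_left_cancel₀ ((map_ne_zero _).2 hD) (?_ : conj D * (N - N1) = _)
      have h8 : ((‖D‖ ^ 2 : ℝ) : ℂ) ≠ 0 := by exact_mod_cast h6
      rw [Complex.ofReal_div]
      rw [show conj D * ((((conj D * (N - N1)).im : ℝ) : ℂ) / ((‖D‖ ^ 2 : ℝ) : ℂ) *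
        (Complex.I * D)) = (conj D * D) * (Complex.I * (((conj D * (N - N1)).im : ℝ) : ℂ)) /
          ((‖D‖ ^ 2 : ℝ) : ℂ) by ring, h5, mul_div_cancel_left₀ _ h8]
      exact h4
    linear_combination h7
  rintro p (rfl | rfl | rfl)
  · exact key _ h1
  · exact key _ h2
  · exact key _ h3

/-- the linear part of the condition -/
noncomputable def linMap (E : Ellipse) (B₀ : ℂ) : ℂ →ₗ[ℝ] ℂ where
  toFun Q := E.a * conj E.b * (conj B₀ * Q - conj Q) +
    (E.a * conj E.a + E.b * conj E.b) * conj B₀ * conj Q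
  map_add' x y := by
    simp only [map_add]
    ring
  map_smul' r x := by
    simp only [Complex.real_smul, map_mul, Complex.conj_ofReal, RingHom.id_apply]
    ring

theorem lin_eq (E : Ellipse) (B₀ k Q : ℂ) : lin E B₀ k Q = linMap E B₀ Q +
    (E.a * conj E.a + E.b * conj E.b) * conj B₀ * (2 * conj k) := by
  unfold lin
  show _ = (E.a * conj E.b * (conj B₀ * Q - conj Q) +
    (E.a * conj E.a + E.b * conj E.b) * conj B₀ * conj Q) + _
  ring

/-- **Q2**, generic case: if the centres of the Euler circles are not all on one line, there is a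
point with constant power. -/
theorem q2_generic (E E' : Ellipse)
    (hnc : ∃ A₁ B₁ C₁ N₁ A₂ B₂ C₂ N₂ A₃ B₃ C₃ N₃ : ℂ,
      Poncelet E E' A₁ B₁ C₁ ∧ IsCentre ((B₁ + C₁) / 2) ((C₁ + A₁) / 2) ((A₁ + B₁) / 2) N₁ ∧
      Poncelet E E' A₂ B₂ C₂ ∧ IsCentre ((B₂ + C₂) / 2) ((C₂ + A₂) / 2) ((A₂ + B₂) / 2) N₂ ∧
      Poncelet E E' A₃ B₃ C₃ ∧ IsCentre ((B₃ + C₃) / 2) ((C₃ + A₃) / 2) ((A₃ + B₃) / 2) N₃ ∧
      ¬ Collinear ℝ {N₁, N₂, N₃}) :
    ∃ (P : ℂ) (κ : ℝ), ∀ A B C : ℂ, Poncelet E E' A B C → EulerPower A B C P κ := by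
  obtain ⟨u, v, k, M⟩ := model_exists E E'
  set B₀ : ℂ := k ^ 2 - 4 * u * v with hB₀
  have cB₀ : conj B₀ = conj k ^ 2 - 4 * conj u * conj v := by
    rw [hB₀]
    simp only [map_sub, map_mul, map_pow, Complex.conj_ofNat]
  -- the linear part is injective
  have hinj : Function.Injective (linMap E B₀) := by
    rw [← LinearMap.ker_eq_bot, LinearMap.ker_eq_bot']
    intro V hV
    by_contra hV0
    obtain ⟨A₁, B₁, C₁, N₁, A₂, B₂, C₂, N₂, A₃, B₃, C₃, N₃, p1, c1, p2, c2, p3, c3, hn⟩ := hnc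
    apply hn
    set D : ℂ := E.pt (-V / 2) - E.pt (-0 / 2) with hD
    have hD0 : D ≠ 0 := by
      rw [hD, sub_ne_zero]
      intro h
      have := E.pt_injective h
      apply hV0
      have h2 : V = -2 * (-V / 2) := by ring
      rw [h2, this]
      ring
    have key : ∀ A B C N : ℂ, Poncelet E E' A B C →
        IsCentre ((B + C) / 2) ((C + A) / 2) ((A + B) / 2) N →
        (conj D * N).re = (‖E.pt (-V / 2)‖ ^ 2 - ‖E.pt (-0 / 2)‖ ^ 2 -
          (cst E B₀ k V - cst E B₀ k 0).re / 4) / 2 := by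
      intro A B C N hp hc
      obtain ⟨z1, z2, z3, s1, s2, l, rfl, rfl, rfl, T, hs1, hs2⟩ := hp.tri M
      rw [← cB₀] at hs1
      have f1 := euler_power T hs1 hs2 hc V
      have f2 := euler_power T hs1 hs2 hc 0
      have f3 : lin E B₀ k V = lin E B₀ k 0 := by
        rw [lin_eq, lin_eq, hV, map_zero]
      rw [f3] at f1
      have f4 : ((4 * (‖E.pt (-V / 2) - N‖ ^ 2 - ‖E.pt (-0 / 2) - N‖ ^ 2) : ℝ) : ℂ) =
          cst E B₀ k V - cst E B₀ k 0 := by
        push_cast at f1 f2 ⊢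
        linear_combination f1 - f2
      have f5 := congrArg Complex.re f4
      rw [Complex.ofReal_re] at f5
      have f6 : ∀ X : ℂ, ‖X - N‖ ^ 2 = ‖X‖ ^ 2 - 2 * (conj X * N).re + ‖N‖ ^ 2 := by
        intro X
        rw [← Complex.normSq_eq_norm_sq, ← Complex.normSq_eq_norm_sq, ← Complex.normSq_eq_norm_sq,
          Complex.normSq_sub, Complex.mul_re, Complex.mul_re]
        simp only [Complex.conj_re, Complex.conj_im]
        ring
      rw [f6, f6] at f5
      rw [hD, map_sub, sub_mul, Complex.sub_re]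
      linarith
    exact collinear_of_re hD0 (key _ _ _ _ p1 c1) (key _ _ _ _ p2 c2) (key _ _ _ _ p3 c3)
  obtain ⟨Q, hQ⟩ := LinearMap.surjective_of_injective hinj
    (-((E.a * conj E.a + E.b * conj E.b) * conj B₀ * (2 * conj k)))
  have hlin : lin E B₀ k Q = 0 := by
    rw [lin_eq, hQ]
    ring
  refine ⟨E.pt (-Q / 2), (cst E B₀ k Q).re / 4, fun A B C hp => ?_⟩
  obtain ⟨z1, z2, z3, s1, s2, l, rfl, rfl, rfl, T, hs1, hs2⟩ := hp.tri M
  rw [← cB₀] at hs1
  constructor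
  · obtain ⟨O, hO⟩ := centre_exists E T
    refine ⟨(E.pt z1 + E.pt z2 + E.pt z3 - O) / 2, euler_centre.2 ?_⟩
    rw [show E.pt z1 + E.pt z2 + E.pt z3 - 2 * ((E.pt z1 + E.pt z2 + E.pt z3 - O) / 2) = O by ring]
    exact hO
  · intro N hN
    have f1 := euler_power T hs1 hs2 hN Q
    rw [hlin, map_zero, mul_zero, mul_zero, add_zero, add_zero] at f1
    have f5 := congrArg Complex.re f1
    rw [Complex.ofReal_re] at f5
    linarith

end Pool.Agent.Q139.Pon
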