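import Pool.Agent.Q139.Pon.Main

/-!
# A pair of ellipses for which no point has constant power with respect to the Euler circles
-/

set_option autoImplicit false

namespace Pool.Agent.Q139.Pon

open ComplexConjugate

theorem Ellipse.pt_surjective (E : Ellipse) (P : ℂ) : ∃ x, E.pt x = P := by
  have hΔ := E.disc_ne
  refine ⟨(conj E.a * (P - E.c) - E.b * conj (P - E.c)) / (E.a * conj E.a - E.b * conj E.b), ?_⟩
  unfold Ellipse.pt
  simp only [map_div₀, map_sub, map_mul, Complex.conj_conj]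
  rw [mul_comm (conj E.a) E.a, mul_comm (conj E.b) E.b, ← mul_div_assoc, ← mul_div_assoc,
    ← add_div, ← eq_sub_iff_add_eq, div_eq_iff hΔ]
  ring

/-- the axes of an ellipse -/
theorem axis_dir (E : Ellipse) (hb : E.b ≠ 0) {d : ℂ} (h : E.IsAxis d) :
    (E.a * E.b * conj d ^ 2).im = 0 := by
  obtain ⟨hd, h⟩ := h
  set a := E.a with ha'
  set b := E.b with hb'
  have ha : a ≠ 0 := by
    intro h0
    have := E.lt
    rw [← ha', ← hb', h0, norm_zero] at this
    exact absurd this (not_lt.2 (norm_nonneg _))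
  set n : ℝ := ‖a‖ * ‖b‖ with hn
  have hn0 : 0 < n := mul_pos (norm_pos_iff.2 ha) (norm_pos_iff.2 hb)
  have cn0 : (n : ℂ) ≠ 0 := by exact_mod_cast hn0.ne'
  have hab : a * conj b ≠ 0 := mul_ne_zero ha ((map_ne_zero _).2 hb)
  have hnab : ‖a * conj b‖ = n := by rw [norm_mul, RCLike.norm_conj]
  obtain ⟨w, hw⟩ := IsAlgClosed.exists_pow_nat_eq ((n : ℂ) / (a * conj b)) (n := 2) two_pos
  have hw1 : ‖w‖ = 1 := by
    have h1 : ‖w‖ ^ 2 = 1 := by
      rw [← norm_pow, hw, norm_div, hnab, Complex.norm_real, Real.norm_of_nonneg hn0.le,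
        div_self hn0.ne']
    nlinarith [norm_nonneg w]
  have hw2 : a * conj b * w ^ 2 = n := by
    rw [hw, mul_div_cancel₀ _ hab]
  have hww := mul_conj_of_norm hw1
  set m : ℂ := a * w + b * conj w with hm
  obtain ⟨w', hw'1, hw'⟩ := h (E.pt w) ⟨w, hw1, rfl⟩
  have hww' := mul_conj_of_norm hw'1
  have e0 : E.pt w - E.c = m := by unfold Ellipse.pt; rw [hm]; ring
  rw [e0] at hw'
  have e1 : d / conj d * conj m = a * w' + b * conj w' := by
    unfold Ellipse.pt at hw'
    linear_combination hw'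
  have cd : conj d ≠ 0 := (map_ne_zero _).2 hd
  -- the two points have the same distance from the centre
  have e2 : ‖a * w' + b * conj w'‖ = ‖m‖ := by
    rw [← e1, norm_mul, norm_div, RCLike.norm_conj, RCLike.norm_conj,
      div_self (norm_ne_zero_iff.2 hd), one_mul]
  have hsq : ∀ x : ℂ, x * conj x = 1 → ‖a * x + b * conj x‖ ^ 2 =
      ‖a‖ ^ 2 + ‖b‖ ^ 2 + 2 * (a * conj b * x ^ 2).re := by
    intro x hx
    have h1 : ((‖a * x + b * conj x‖ ^ 2 : ℝ) : ℂ) = ((‖a‖ ^ 2 + ‖b‖ ^ 2 +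
        2 * (a * conj b * x ^ 2).re : ℝ) : ℂ) := by
      rw [norm_sq_eq, Complex.ofReal_add, Complex.ofReal_add, norm_sq_eq, norm_sq_eq,
        Complex.ofReal_mul, Complex.re_eq_add_conj]
      simp only [map_add, map_mul, map_pow, Complex.conj_conj]
      push_cast
      linear_combination (a * conj a + b * conj b) * hx
    exact_mod_cast h1
  have e3 : (a * conj b * w' ^ 2).re = n := by
    have h1 := hsq w' hww'
    have h2 := hsq w hww
    rw [e2] at h1
    rw [hw2, Complex.ofReal_re] at h2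
    rw [h2] at h1
    linarith
  have e4 : a * conj b * w' ^ 2 = n := by
    have h1 : ‖a * conj b * w' ^ 2‖ = n := by
      rw [norm_mul, norm_pow, hw'1, hnab]
      ring
    have h2 : (a * conj b * w' ^ 2).im = 0 := by
      have h3 := Complex.sq_norm_sub_sq_re (a * conj b * w' ^ 2)
      rw [h1, e3, sub_self] at h3
      exact pow_eq_zero_iff two_ne_zero |>.1 h3.symm
    exact Complex.ext (by rw [e3, Complex.ofReal_re]) (by rw [h2, Complex.ofReal_im])
  have e5 : w' = w ∨ w' = -w := by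
    have h1 : a * conj b * (w' ^ 2 - w ^ 2) = 0 := by rw [mul_sub, e4, hw2, sub_self]
    have h2 := (mul_eq_zero.1 h1).resolve_left hab
    have h3 : (w' - w) * (w' + w) = 0 := by linear_combination h2
    rcases mul_eq_zero.1 h3 with h4 | h4
    · exact Or.inl (sub_eq_zero.1 h4)
    · exact Or.inr (by linear_combination h4)
  -- `d / conj d * conj m = ± m`
  have e6 : ∃ r : ℝ, d / conj d * conj m = r * m ∧ r ^ 2 = 1 := by
    rcases e5 with h1 | h1
    · exact ⟨1, by rw [e1, h1, hm]; push_cast; ring, by norm_num⟩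
    · exact ⟨-1, by rw [e1, h1, hm, map_neg]; push_cast; ring, by norm_num⟩
  obtain ⟨r, hr, hr2⟩ := e6
  have hw2' : conj a * b * conj w ^ 2 = n := by
    have := congrArg conj hw2
    simp only [map_mul, map_pow, Complex.conj_conj, Complex.conj_ofReal] at this
    exact this
  have e7 : (n : ℂ) * m ^ 2 = a * b * (((‖a‖ + ‖b‖) ^ 2 : ℝ) : ℂ) := by
    refine mul_left_cancel₀ cn0 ?_
    have g1 : a * conj a = (‖a‖ : ℂ) ^ 2 := by rw [← norm_sq_eq]; push_cast; rfl
    have g2 : b * conj b = (‖b‖ : ℂ) ^ 2 := by rw [← norm_sq_eq]; push_cast; rfl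
    have g3 : (n : ℂ) = (‖a‖ : ℂ) * (‖b‖ : ℂ) := by rw [hn]; push_cast; rfl
    have g4 : (n : ℂ) ^ 2 = (a * conj a) * (b * conj b) := by rw [g3, g1, g2]; ring
    have g5 : (n : ℂ) ^ 2 * m ^ 2 = a * b * n * (a * conj a + b * conj b + 2 * n) := by
      rw [hm]
      linear_combination (a * w + b * conj w) ^ 2 * g4 - (a * b * n * 2) * 0 * g4 +
        (a * conj a * a * b) * hw2 + (b * conj b * a * b) * hw2' +
        (2 * a * b * (a * conj a) * (b * conj b)) * hww - 2 * a * b * g4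
    rw [show ((n : ℂ)) * (n * m ^ 2) = (n : ℂ) ^ 2 * m ^ 2 by ring, g5, g1, g2, g3]
    push_cast
    ring
  -- conclusion
  have hS : (((‖a‖ + ‖b‖) ^ 2 : ℝ) : ℂ) ≠ 0 := by
    have : 0 < (‖a‖ + ‖b‖) ^ 2 := by
      have := norm_pos_iff.2 ha
      positivity
    exact_mod_cast this.ne'
  -- `m * conj d` is real or imaginary
  have hr' : d * conj m = r * (m * conj d) := by
    rw [div_mul_eq_mul_div, div_eq_iff cd] at hr
    rw [hr]
    ring
  have e8 : conj ((m * conj d) ^ 2) = (m * conj d) ^ 2 := by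
    have h1 : conj (m * conj d) = r * (m * conj d) := by
      rw [map_mul, Complex.conj_conj, mul_comm, hr']
    rw [map_pow, h1, mul_pow]
    have : ((r : ℂ)) ^ 2 = 1 := by exact_mod_cast hr2
    rw [this, one_mul]
  obtain ⟨q, hq⟩ := Complex.conj_eq_iff_real.1 e8
  have e9 : a * b * conj d ^ 2 = ((n * q / (‖a‖ + ‖b‖) ^ 2 : ℝ) : ℂ) := by
    rw [Complex.ofReal_div, eq_div_iff hS, Complex.ofReal_mul, ← hq]
    linear_combination (-(conj d) ^ 2) * e7
  rw [e9, Complex.ofReal_im]

end Pool.Agent.Q139.Pon
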