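import Pool.Agent.Q139.Pon.Example

/-!
# The special pair of ellipses
-/

set_option autoImplicit false

namespace Pool.Agent.Q139.Pon

open ComplexConjugate

variable {E E' : Ellipse} {u v k : ℂ}

/-- tangency from the symmetric functions -/
theorem tangent_of_sym (M : Model E E' u v k) {z x y s1 s2 l B₀ : ℂ} (nz : ‖z‖ = 1)
    (nx : ‖x‖ = 1) (ny : ‖y‖ = 1) (hxy : x ≠ y) (h1 : z * x * y = l) (h2 : z + x + y = s1)
    (h3 : z ^ 3 - s1 * z ^ 2 + s2 * z - l = 0) (hs1 : s1 = 2 * k + conj B₀ * l)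
    (hs2 : s2 = B₀ + 2 * conj k * l) (hB : B₀ = k ^ 2 - 4 * u * v)
    (hcl : 1 + B₀ * conj B₀ - 2 * k * conj k = 4 * (u * conj u + v * conj v)) :
    Tangent E' (E.pt x) (E.pt y) := by
  rw [tangent_iff M nx ny hxy]
  have cB : conj B₀ = conj k ^ 2 - 4 * conj u * conj v := by
    rw [hB]
    simp only [map_sub, map_mul, map_pow, Complex.conj_ofNat]
  have hz0 : z ^ 2 ≠ 0 := by
    apply pow_ne_zero
    intro h0
    rw [h0, norm_zero] at nz
    exact zero_ne_one nz
  have h5 : x + y = s1 - z := by linear_combination h2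
  have h6 : ((s1 - z - k) * z - l * conj k) ^ 2 =
      4 * (u * z + l * conj v) * (v * z + l * conj u) := by
    rw [hs1, hs2] at h3
    rw [hs1]
    linear_combination (z + (2 * k + conj B₀ * l) - 2 * ((2 * k + conj B₀ * l) - k)) * h3 +
      l * z * hcl + z ^ 2 * (-hB) * 1 + l ^ 2 * (-cB)
  refine mul_left_cancel₀ hz0 ?_
  rw [h5]
  rw [← h1] at h6
  linear_combination h6

/-- the centre parameter of the example -/
noncomputable def k0 : ℂ := ⟨14 / 18, 1 / 18⟩

/-- the parameter `v` of the example -/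
noncomputable def v0 : ℂ := ⟨-3 / 36, 4 / 36⟩

/-- the parameter `u` of the example -/
noncomputable def u0 : ℂ := ⟨7 / 36, 0⟩

/-- the outer ellipse of the example -/
noncomputable def E0 : Ellipse where
  a := 72
  b := 36
  c := 0
  lt := by
    rw [show ((72 : ℂ)) = ((72 : ℝ) : ℂ) by norm_num, show ((36 : ℂ)) = ((36 : ℝ) : ℂ) by norm_num,
      Complex.norm_real, Complex.norm_real]
    norm_num

theorem lt1 : ‖(⟨1, 8⟩ : ℂ)‖ < ‖(⟨11, -4⟩ : ℂ)‖ := by
  rw [Complex.norm_def, Complex.norm_def, Complex.normSq_mk, Complex.normSq_mk]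
  apply Real.sqrt_lt_sqrt <;> norm_num

/-- the inner ellipse of the example -/
noncomputable def E1 : Ellipse where
  a := ⟨11, -4⟩
  b := ⟨1, 8⟩
  c := ⟨84, 2⟩
  lt := lt1

theorem model0 : Model E0 E1 u0 v0 k0 where
  ha := by
    apply Complex.ext <;> simp [E0, E1, u0, v0, k0] <;> norm_num
  hb := by
    apply Complex.ext <;> simp [E0, E1, u0, v0, k0] <;> norm_num
  hc := by
    apply Complex.ext <;> simp [E0, E1, u0, v0, k0] <;> norm_num

theorem b0 : (2 / 3 : ℂ) = k0 ^ 2 - 4 * u0 * v0 := by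
  apply Complex.ext <;> simp [u0, v0, k0, pow_two] <;> norm_num

theorem conj23 : conj (2 / 3 : ℂ) = 2 / 3 := by
  rw [show (2 / 3 : ℂ) = ((2 / 3 : ℝ) : ℂ) by norm_num, Complex.conj_ofReal]

theorem closure0 : 1 + (2 / 3 : ℂ) * conj (2 / 3 : ℂ) - 2 * k0 * conj k0 =
    4 * (u0 * conj u0 + v0 * conj v0) := by
  rw [conj23]
  apply Complex.ext <;> simp [u0, v0, k0] <;> norm_num

theorem inside0 : E1.curve ⊆ E0.inside := by
  rintro z ⟨w, hw, rfl⟩
  refine ⟨u0 * w + v0 * conj w + k0, ?_, model0.pt w⟩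
  have h1 : w.re ^ 2 + w.im ^ 2 = 1 := by
    have := mul_conj_of_norm hw
    rw [Complex.mul_conj, Complex.normSq_apply] at this
    have h2 : w.re * w.re + w.im * w.im = 1 := by exact_mod_cast this
    nlinarith
  have h2 : Complex.normSq (u0 * w + v0 * conj w + k0) < 1 := by
    rw [Complex.normSq_apply]
    simp only [u0, v0, k0, Complex.add_re, Complex.add_im, Complex.mul_re, Complex.mul_im,
      Complex.conj_re, Complex.conj_im]
    set x := w.re
    set y := w.im
    have h3 : 240 * x + 264 * y ≤ 360 := by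
      nlinarith [sq_nonneg (264 * x - 240 * y), sq_nonneg (240 * x + 264 * y - 360)]
    nlinarith [sq_nonneg (2 * x - y)]
  rw [Complex.normSq_eq_norm_sq] at h2
  nlinarith [norm_nonneg (u0 * w + v0 * conj w + k0)]

end Pool.Agent.Q139.Pon
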