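import Pool.Agent.Q139.Pon.Example2

/-!
# The Poncelet triangles of the special pair of ellipses
-/

set_option autoImplicit false

namespace Pool.Agent.Q139.Pon

open ComplexConjugate Polynomial

/-- all roots of the cubic are on the unit circle -/
theorem root_norm {l z : ℂ} (hl : ‖l‖ = 1)
    (h : z ^ 3 - (2 * k0 + 2 / 3 * l) * z ^ 2 + (2 / 3 + 2 * conj k0 * l) * z - l = 0) :
    ‖z‖ = 1 := by
  set N : ℂ := z ^ 2 - 2 * k0 * z + 2 / 3 with hN
  set M : ℂ := 2 / 3 * z ^ 2 - 2 * conj k0 * z + 1 with hM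
  have h1 : z * N = l * M := by rw [hN, hM]; linear_combination h
  have h2 : Complex.normSq z * Complex.normSq N = Complex.normSq M := by
    have h3 := congrArg Complex.normSq h1
    rw [map_mul, map_mul, Complex.normSq_eq_norm_sq l, hl, one_pow, one_mul] at h3
    exact h3
  set x := z.re with hx
  set y := z.im with hy
  have n1 : Complex.normSq z = x ^ 2 + y ^ 2 := by rw [Complex.normSq_apply]; ring
  have hz : z = ⟨x, y⟩ := rfl
  have n2 : N = ⟨x ^ 2 - y ^ 2 - (14 * x - y) / 9 + 2 / 3, 2 * x * y - (14 * y + x) / 9⟩ := by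
    rw [hN, hz]
    apply Complex.ext
    · simp [k0, pow_two]; ring
    · simp [k0, pow_two]; ring
  have n3 : M = ⟨2 / 3 * (x ^ 2 - y ^ 2) - (14 * x + y) / 9 + 1,
      4 / 3 * x * y - (14 * y - x) / 9⟩ := by
    rw [hM, hz]
    apply Complex.ext
    · simp [k0, pow_two]; ring
    · simp [k0, pow_two]; ring
  have hR : 0 < 5 / 9 * (x ^ 2 + y ^ 2 + 1) + 4 * ((-14) / 54 * x - 5 / 54 * y) := by
    nlinarith [sq_nonneg (x - 14 / 15), sq_nonneg (y - 1 / 3)]
  have e : (x ^ 2 + y ^ 2 - 1) * (Complex.normSq N + (5 / 9 * (x ^ 2 + y ^ 2 + 1) +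
      4 * ((-14) / 54 * x - 5 / 54 * y))) = 0 := by
    have e1 : Complex.normSq N - Complex.normSq M = (x ^ 2 + y ^ 2 - 1) *
        (5 / 9 * (x ^ 2 + y ^ 2 + 1) + 4 * ((-14) / 54 * x - 5 / 54 * y)) := by
      rw [n2, n3, Complex.normSq_mk, Complex.normSq_mk]
      ring
    rw [n1] at h2
    linear_combination h2 - e1
  have hpos : 0 < Complex.normSq N + (5 / 9 * (x ^ 2 + y ^ 2 + 1) +
      4 * ((-14) / 54 * x - 5 / 54 * y)) := by
    have := Complex.normSq_nonneg N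
    linarith
  have e2 := (mul_eq_zero.1 e).resolve_right hpos.ne'
  have e3 : ‖z‖ ^ 2 = 1 := by
    rw [← Complex.normSq_eq_norm_sq, n1]
    linarith
  nlinarith [norm_nonneg z]

/-- the roots of the cubic are simple -/
theorem root_simple {l z : ℂ} (hz : ‖z‖ = 1)
    (h : z ^ 3 - (2 * k0 + 2 / 3 * l) * z ^ 2 + (2 / 3 + 2 * conj k0 * l) * z - l = 0) :
    3 * z ^ 2 - 2 * (2 * k0 + 2 / 3 * l) * z + (2 / 3 + 2 * conj k0 * l) ≠ 0 := by
  intro hd
  set N : ℂ := z ^ 2 - 2 * k0 * z + 2 / 3 with hN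
  set M : ℂ := 2 / 3 * z ^ 2 - 2 * conj k0 * z + 1 with hM
  have hzz := mul_conj_of_norm hz
  have h1 : z * N = l * M := by rw [hN, hM]; linear_combination h
  have h2 : N + z * (2 * z - 2 * k0) = l * (4 / 3 * z - 2 * conj k0) := by
    rw [hN]; linear_combination hd
  have h3 : N * M + z * ((2 * z - 2 * k0) * M - N * (4 / 3 * z - 2 * conj k0)) = 0 := by
    linear_combination M * h2 - (4 / 3 * z - 2 * conj k0) * h1
  have cN : conj N = conj z ^ 2 - 2 * conj k0 * conj z + 2 / 3 := by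
    rw [hN]
    simp only [map_add, map_sub, map_mul, map_pow, conj23, Complex.conj_ofNat]
  have h4 : N * conj N + (10 / 9 + 2 * (2 / 3 * k0 - conj k0) * z +
      2 * (2 / 3 * conj k0 - k0) * conj z) = 0 := by
    have e1 : M = z ^ 2 * conj N := by
      rw [cN, hM]
      linear_combination (-(1 + z * conj z) + 2 * conj k0 * z) * hzz
    have hz2 : z ^ 2 ≠ 0 := by
      apply pow_ne_zero
      intro h0
      rw [h0, norm_zero] at hz
      exact zero_ne_one hz
    refine mul_left_cancel₀ hz2 ?_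
    have e5 : z * ((2 * z - 2 * k0) * M - N * (4 / 3 * z - 2 * conj k0)) = z ^ 2 * (10 / 9 +
        2 * (2 / 3 * k0 - conj k0) * z + 2 * (2 / 3 * conj k0 - k0) * conj z) := by
      rw [hM, hN]
      linear_combination (-2 * (2 / 3 * conj k0 - k0) * z) * hzz
    linear_combination h3 - N * e1 - e5
  have h5 := congrArg Complex.re h4
  rw [Complex.mul_conj] at h5
  set x := z.re with hx
  set y := z.im with hy
  have h6 : x ^ 2 + y ^ 2 = 1 := by
    have := hzz
    rw [Complex.mul_conj, Complex.normSq_apply] at this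
    have h2 : z.re * z.re + z.im * z.im = 1 := by exact_mod_cast this
    nlinarith
  have h7 : (10 / 9 + 2 * (2 / 3 * k0 - conj k0) * z + 2 * (2 / 3 * conj k0 - k0) * conj z).re =
      10 / 9 + 4 * (-14 / 54 * x - 5 / 54 * y) := by
    have hz : z = ⟨x, y⟩ := rfl
    rw [hz]
    simp [k0]
    ring
  rw [Complex.add_re, h7, Complex.ofReal_re, Complex.zero_re] at h5
  have h8 := Complex.normSq_nonneg N
  nlinarith [sq_nonneg (x - 14 / 15), sq_nonneg (y - 1 / 3)]

/-- for every unimodular `l` there are three points on the unit circle -/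
theorem exists_tri {l : ℂ} (hl : ‖l‖ = 1) : ∃ z1 z2 z3 : ℂ,
    Tri z1 z2 z3 (2 * k0 + 2 / 3 * l) (2 / 3 + 2 * conj k0 * l) l := by
  set s1 := 2 * k0 + 2 / 3 * l with hs1
  set s2 := 2 / 3 + 2 * conj k0 * l with hs2
  have hroot : ∃ z : ℂ, z ^ 3 - s1 * z ^ 2 + s2 * z - l = 0 := by
    set p : ℂ[X] := X ^ 3 - C s1 * X ^ 2 + C s2 * X - C l with hp
    have hdeg : p.degree = 3 := by
      rw [hp]
      compute_degree!
    obtain ⟨z, hz⟩ := IsAlgClosed.exists_root p (by rw [hdeg]; norm_num)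
    refine ⟨z, ?_⟩
    rw [hp, IsRoot.def] at hz
    simpa using hz
  obtain ⟨z1, h1⟩ := hroot
  obtain ⟨δ, hδ⟩ := IsAlgClosed.exists_pow_nat_eq ((s1 - z1) ^ 2 -
    4 * (z1 ^ 2 - s1 * z1 + s2)) (n := 2) two_pos
  set z2 := ((s1 - z1) + δ) / 2 with hz2
  set z3 := ((s1 - z1) - δ) / 2 with hz3
  have e1 : s1 = z1 + z2 + z3 := by rw [hz2, hz3]; ring
  have e23 : z2 * z3 = z1 ^ 2 - s1 * z1 + s2 := by
    rw [hz2, hz3]
    linear_combination (-1 / 4 : ℂ) * hδ
  have e2 : s2 = z1 * z2 + z2 * z3 + z3 * z1 := by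
    linear_combination -e23 - z1 * e1 * (-1) * 1 - 0 * e1
  have e3 : l = z1 * z2 * z3 := by
    linear_combination -h1 - z1 * e23
  have h2 : z2 ^ 3 - s1 * z2 ^ 2 + s2 * z2 - l = 0 := by
    linear_combination (-z2 ^ 2) * e1 + z2 * e2 - e3
  have h3 : z3 ^ 3 - s1 * z3 ^ 2 + s2 * z3 - l = 0 := by
    linear_combination (-z3 ^ 2) * e1 + z3 * e2 - e3
  have n1 : ‖z1‖ = 1 := root_norm hl h1
  have n2 : ‖z2‖ = 1 := root_norm hl h2
  have n3 : ‖z3‖ = 1 := root_norm hl h3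
  have d1 := root_simple n1 h1
  have d2 := root_simple n2 h2
  have d3 := root_simple n3 h3
  refine ⟨z1, z2, z3, n1, n2, n3, ?_, ?_, ?_, e1, e2, e3⟩
  · intro h
    apply d1
    show 3 * z1 ^ 2 - 2 * s1 * z1 + s2 = 0
    linear_combination (-2 * z1) * e1 + e2 + (z1 - z3) * h
  · intro h
    apply d1
    show 3 * z1 ^ 2 - 2 * s1 * z1 + s2 = 0
    linear_combination (-2 * z1) * e1 + e2 + (z1 - z2) * h
  · intro h
    apply d2
    show 3 * z2 ^ 2 - 2 * s1 * z2 + s2 = 0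
    linear_combination (-2 * z2) * e1 + e2 + (z2 - z1) * h

/-- for every unimodular `l` there is a Poncelet triangle -/
theorem exists_poncelet {l : ℂ} (hl : ‖l‖ = 1) : ∃ z1 z2 z3 : ℂ,
    Tri z1 z2 z3 (2 * k0 + 2 / 3 * l) (2 / 3 + 2 * conj k0 * l) l ∧
      Poncelet E0 E1 (E0.pt z1) (E0.pt z2) (E0.pt z3) := by
  obtain ⟨z1, z2, z3, T⟩ := exists_tri hl
  have hs1 : 2 * k0 + 2 / 3 * l = 2 * k0 + conj (2 / 3 : ℂ) * l := by rw [conj23]
  have ne : ∀ {x y : ℂ}, x ≠ y → E0.pt x ≠ E0.pt y := fun h h' => h (E0.pt_injective h')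
  refine ⟨z1, z2, z3, T, ⟨z1, T.n1, rfl⟩, ⟨z2, T.n2, rfl⟩, ⟨z3, T.n3, rfl⟩, ne T.h12, ne T.h23,
    ne T.h13.symm, ?_, ?_, ?_⟩
  · exact tangent_of_sym model0 T.n3 T.n1 T.n2 T.h12 (by rw [T.e3]; ring) (by rw [T.e1]; ring)
      T.cub3 hs1 rfl b0 closure0
  · exact tangent_of_sym model0 T.n1 T.n2 T.n3 T.h23 (by rw [T.e3]) (by rw [T.e1])
      T.cub1 hs1 rfl b0 closure0
  · exact tangent_of_sym model0 T.n2 T.n3 T.n1 T.h13.symm (by rw [T.e3]; ring)
      (by rw [T.e1]; ring) T.cub2 hs1 rfl b0 closure0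

theorem not_aligned : ¬ AxisAligned E0 E1 := by
  rintro ⟨d, h0, h1⟩
  have b0ne : E0.b ≠ 0 := by show (36 : ℂ) ≠ 0; norm_num
  have b1ne : E1.b ≠ 0 := by
    intro h
    have := congrArg Complex.re h
    simp [E1] at this
  have e0 := axis_dir E0 b0ne h0
  have e1 := axis_dir E1 b1ne h1
  set D := conj d ^ 2 with hD
  have f0 : D.im = 0 := by
    have : E0.a * E0.b * D = ((2592 : ℝ) : ℂ) * D := by
      show (72 : ℂ) * 36 * D = _
      push_cast
      ring
    rw [this, Complex.re_ofReal_mul |> fun _ => Complex.im_ofReal_mul] at e0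
    linarith
  have f1 : D.re = 0 := by
    have : E1.a * E1.b = ⟨43, 84⟩ := by
      apply Complex.ext <;> simp [E1] <;> norm_num
    rw [this, Complex.mul_im, f0] at e1
    simpa using e1
  have f2 : D = 0 := Complex.ext f1 f0
  have f3 : conj d = 0 := pow_eq_zero_iff two_ne_zero |>.1 f2
  exact h0.1 ((map_eq_zero _).1 f3)

/-- the counterexample -/
theorem no_point (P : ℂ) : ∃ (A B C : ℂ) (κ : ℝ) (A' B' C' : ℂ) (κ' : ℝ),
    Poncelet E0 E1 A B C ∧ EulerPower A B C P κ ∧ Poncelet E0 E1 A' B' C' ∧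
      EulerPower A' B' C' P κ' ∧ κ ≠ κ' := by
  obtain ⟨x, hx⟩ := E0.pt_surjective P
  set Q : ℂ := -2 * x with hQ
  have hP : P = E0.pt (-Q / 2) := by
    rw [← hx, hQ]
    congr 1
    ring
  set L := lin E0 (2 / 3) k0 Q with hL
  have hL0 : L ≠ 0 := by
    intro h
    have h1 := congrArg Complex.im h
    have h2 : L = 1728 * (Q + conj Q) + 8640 * conj k0 := by
      rw [hL]
      unfold lin
      rw [conj23]
      have c36 : conj (36 : ℂ) = 36 := Complex.conj_ofNat 36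
      have c72 : conj (72 : ℂ) = 72 := Complex.conj_ofNat 72
      simp only [E0, c36, c72]
      ring
    rw [h2] at h1
    simp [k0] at h1
  have nL : 0 < ‖L‖ := norm_pos_iff.2 hL0
  have cnL : ((‖L‖ : ℝ) : ℂ) ≠ 0 := by exact_mod_cast nL.ne'
  have hLL : L * conj L = ((‖L‖ : ℝ) : ℂ) ^ 2 := by
    rw [← norm_sq_eq]; push_cast; rfl
  -- the two values
  have key : ∀ r : ℝ, r ^ 2 = 1 → ∃ A B C : ℂ, Poncelet E0 E1 A B C ∧
      EulerPower A B C P (((cst E0 (2 / 3) k0 Q).re + 2 * r * ‖L‖) / 4) := by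
    intro r hr
    set l : ℂ := (r : ℂ) * conj L / (‖L‖ : ℝ) with hl
    have hl1 : ‖l‖ = 1 := by
      have hr1 : |r| = 1 := by
        rw [← sq_abs] at hr
        nlinarith [abs_nonneg r]
      rw [hl, norm_div, norm_mul, RCLike.norm_conj, Complex.norm_real, Complex.norm_real,
        Real.norm_eq_abs, Real.norm_of_nonneg nL.le, hr1, one_mul, div_self nL.ne']
    obtain ⟨z1, z2, z3, T, hp⟩ := exists_poncelet hl1
    refine ⟨_, _, _, hp, ?_⟩
    constructor
    · obtain ⟨O, hO⟩ := centre_exists E0 T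
      refine ⟨(E0.pt z1 + E0.pt z2 + E0.pt z3 - O) / 2, euler_centre.2 ?_⟩
      rw [show E0.pt z1 + E0.pt z2 + E0.pt z3 - 2 * ((E0.pt z1 + E0.pt z2 + E0.pt z3 - O) / 2) = O
        by ring]
      exact hO
    · intro N hN
      have hs1 : 2 * k0 + 2 / 3 * l = 2 * k0 + conj (2 / 3 : ℂ) * l := by rw [conj23]
      have f1 := euler_power T hs1 rfl hN Q
      have f2 : l * L = ((r * ‖L‖ : ℝ) : ℂ) := by
        rw [hl, Complex.ofReal_mul, div_mul_eq_mul_div, div_eq_iff cnL]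
        linear_combination (r : ℂ) * hLL
      have f3 : conj l * conj L = ((r * ‖L‖ : ℝ) : ℂ) := by
        rw [← map_mul, f2, Complex.conj_ofReal]
      rw [← hL, add_assoc, f2, f3] at f1
      have f5 := congrArg Complex.re f1
      rw [Complex.ofReal_re, Complex.add_re, Complex.add_re, Complex.ofReal_re] at f5
      rw [hP]
      linarith
  obtain ⟨A, B, C, h1, h2⟩ := key 1 (by norm_num)
  obtain ⟨A', B', C', h1', h2'⟩ := key (-1) (by norm_num)
  refine ⟨A, B, C, _, A', B', C', _, h1, h2, h1', h2', ?_⟩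
  intro h
  linarith

end Pool.Agent.Q139.Pon
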