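import Pool.Agent.Q139.Pon.Tan

/-!
# Invariance of the powers
-/

set_option autoImplicit false

namespace Pool.Agent.Q139.Pon

open ComplexConjugate

variable {E E' : Ellipse} {u v k : ℂ}

/-- the product of the foci of the inner ellipse is smaller than one in the model -/
theorem foci {u v k : ℂ} (h : ∀ w : ℂ, ‖w‖ = 1 → ‖u * w + v * conj w + k‖ < 1) :
    ‖k ^ 2 - 4 * u * v‖ < 1 := by
  obtain ⟨ρ, hρ⟩ := IsAlgClosed.exists_pow_nat_eq (u * v) (n := 2) two_pos
  -- the foci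
  have key : ∀ ρ : ℂ, ρ ^ 2 = u * v → ‖k + 2 * ρ‖ < 1 := by
    intro ρ hρ
    by_cases h0 : ρ = 0
    · subst h0
      rw [mul_zero, add_zero]
      have h1 := h 1 (by simp)
      have h2 := h (-1) (by simp)
      have h3 : k = (1 / 2 : ℂ) * ((u * 1 + v * conj 1 + k) + (u * (-1) + v * conj (-1) + k)) := by
        simp
        ring
      rw [h3, norm_mul]
      have h4 := norm_add_le (u * 1 + v * conj 1 + k) (u * (-1) + v * conj (-1) + k)
      have h5 : ‖(1 / 2 : ℂ)‖ = 1 / 2 := by norm_num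
      rw [h5]
      linarith
    · have hu : u ≠ 0 := by
        intro hu
        rw [hu, zero_mul] at hρ
        exact h0 (pow_eq_zero_iff two_ne_zero |>.1 hρ)
      have nρ : 0 < ‖ρ‖ := norm_pos_iff.2 h0
      have nu : 0 < ‖u‖ := norm_pos_iff.2 hu
      have hn : ‖ρ‖ ^ 2 = ‖u‖ * ‖v‖ := by rw [← norm_pow, hρ, norm_mul]
      set m : ℝ := (‖u‖ + ‖v‖) / ‖ρ‖ with hm
      have hm2 : 2 ≤ m := by
        rw [hm, le_div_iff₀ nρ]
        nlinarith [sq_nonneg (‖u‖ - ‖v‖), norm_nonneg v]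
      set w : ℂ := (‖u‖ : ℂ) * ρ / ((‖ρ‖ : ℂ) * u) with hw
      have cu : (‖u‖ : ℂ) ≠ 0 := by exact_mod_cast nu.ne'
      have cρ : (‖ρ‖ : ℂ) ≠ 0 := by exact_mod_cast nρ.ne'
      have hwn : ‖w‖ = 1 := by
        rw [hw, norm_div, norm_mul, norm_mul, Complex.norm_real, Complex.norm_real,
          Real.norm_of_nonneg nu.le, Real.norm_of_nonneg nρ.le]
        field_simp
      have e1 : ρ * conj ρ = (‖ρ‖ : ℂ) ^ 2 := by
        rw [← norm_sq_eq]; push_cast; rfl
      have e2 : u * conj u = (‖u‖ : ℂ) ^ 2 := by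
        rw [← norm_sq_eq]; push_cast; rfl
      have e3 : (‖ρ‖ : ℂ) ^ 2 = (‖u‖ : ℂ) * (‖v‖ : ℂ) := by exact_mod_cast hn
      have huw : u * w + v * conj w = (m : ℂ) * ρ := by
        have g1 : u * w = (‖u‖ : ℂ) * ρ / (‖ρ‖ : ℂ) := by
          rw [hw]; field_simp
        have g2 : v * conj w = (‖v‖ : ℂ) * ρ / (‖ρ‖ : ℂ) := by
          have cu' : conj u ≠ 0 := (map_ne_zero _).2 hu
          rw [hw]
          simp only [map_div₀, map_mul, Complex.conj_ofReal]
          rw [← mul_div_assoc, div_eq_div_iff (mul_ne_zero cρ cu') cρ]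
          refine mul_left_cancel₀ hu ?_
          -- u v ‖u‖ ρ̄ ‖ρ‖ = u ‖v‖ ρ ‖ρ‖ ū
          linear_combination (-(conj ρ * ‖u‖ * ‖ρ‖)) * hρ + (‖u‖ * ‖ρ‖ * ρ) * e1 -
            (‖v‖ * ρ * ‖ρ‖) * e2 + (‖u‖ * ‖ρ‖ * ρ) * e3
        rw [g1, g2, hm]
        push_cast
        ring
      have h1 := h w hwn
      have h2 := h (-w) (by rw [norm_neg]; exact hwn)
      rw [huw] at h1
      have h2' : u * -w + v * conj (-w) + k = -((m : ℂ) * ρ) + k := by
        rw [map_neg, ← huw]; ring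
      rw [h2'] at h2
      have hm0 : (0 : ℝ) < m := by linarith
      have cm : (m : ℂ) ≠ 0 := by exact_mod_cast hm0.ne'
      have h3 : k + 2 * ρ = (((m + 2) / (2 * m) : ℝ) : ℂ) * ((m : ℂ) * ρ + k) +
          (((m - 2) / (2 * m) : ℝ) : ℂ) * (-((m : ℂ) * ρ) + k) := by
        push_cast
        field_simp
        ring
      rw [h3]
      refine (norm_add_le _ _).trans_lt ?_
      rw [norm_mul, norm_mul, Complex.norm_real, Complex.norm_real,
        Real.norm_of_nonneg (by positivity), Real.norm_of_nonneg (div_nonneg (by linarith)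
          (by linarith))]
      have h4 : 0 < (m + 2) / (2 * m) := by positivity
      have h5 : 0 ≤ (m - 2) / (2 * m) := div_nonneg (by linarith) (by linarith)
      have h6 : (m + 2) / (2 * m) + (m - 2) / (2 * m) = 1 := by
        field_simp
        ring
      nlinarith
  have h1 := key ρ hρ
  have h2 := key (-ρ) (by rw [neg_sq]; exact hρ)
  have h3 : k ^ 2 - 4 * u * v = (k + 2 * ρ) * (k + 2 * -ρ) := by
    linear_combination 4 * hρ
  rw [h3, norm_mul]
  nlinarith [norm_nonneg (k + 2 * ρ), norm_nonneg (k + 2 * -ρ)]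

/-- the data of a Poncelet triangle in the model -/
theorem Poncelet.tri (M : Model E E' u v k) {A B C : ℂ} (h : Poncelet E E' A B C) :
    ∃ z1 z2 z3 s1 s2 l : ℂ, A = E.pt z1 ∧ B = E.pt z2 ∧ C = E.pt z3 ∧ Tri z1 z2 z3 s1 s2 l ∧
      s1 = 2 * k + (conj k ^ 2 - 4 * conj u * conj v) * l ∧
      s2 = (k ^ 2 - 4 * u * v) + 2 * conj k * l := by
  obtain ⟨⟨z1, n1, rfl⟩, ⟨z2, n2, rfl⟩, ⟨z3, n3, rfl⟩, hab, hbc, hca, t1, t2, t3⟩ := h
  have h12 : z1 ≠ z2 := fun h => hab (by rw [h])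
  have h23 : z2 ≠ z3 := fun h => hbc (by rw [h])
  have h31 : z3 ≠ z1 := fun h => hca (by rw [h])
  have T : Tri z1 z2 z3 (z1 + z2 + z3) (z1 * z2 + z2 * z3 + z3 * z1) (z1 * z2 * z3) :=
    ⟨n1, n2, n3, h12, h31.symm, h23, rfl, rfl, rfl⟩
  obtain ⟨a, b⟩ := sym_of_tangent T ((tangent_iff M n1 n2 h12).1 t1)
    ((tangent_iff M n2 n3 h23).1 t2) ((tangent_iff M n3 n1 h31).1 t3)
  exact ⟨z1, z2, z3, _, _, _, rfl, rfl, rfl, T, a, b⟩

/-- **Q1** -/
theorem q1 (E E' : Ellipse) (hin : E'.curve ⊆ E.inside) :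
    ∃ (P : ℂ) (κ : ℝ), ∀ A B C : ℂ, Poncelet E E' A B C → CircumPower A B C P κ := by
  obtain ⟨u, v, k, M⟩ := model_exists E E'
  have hlt : ‖k ^ 2 - 4 * u * v‖ < 1 := by
    refine foci fun w hw => ?_
    obtain ⟨z, hz, h1⟩ := hin ⟨w, hw, rfl⟩
    rw [M.pt] at h1
    rw [E.pt_injective h1]
    exact hz
  set B₀ : ℂ := k ^ 2 - 4 * u * v with hB₀
  have cB₀ : conj B₀ = conj k ^ 2 - 4 * conj u * conj v := by
    rw [hB₀]
    simp only [map_sub, map_mul, map_pow, Complex.conj_ofNat]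
  have hden : (1 : ℂ) - B₀ * conj B₀ ≠ 0 := by
    rw [← norm_sq_eq, ← Complex.ofReal_one, ← Complex.ofReal_sub, Ne, Complex.ofReal_eq_zero]
    nlinarith [norm_nonneg B₀]
  set x : ℂ := (2 * k - B₀ * (2 * conj k)) / (1 - B₀ * conj B₀) with hx
  have cx : conj x = (2 * conj k - conj B₀ * (2 * k)) / (1 - B₀ * conj B₀) := by
    rw [hx]
    simp only [map_div₀, map_sub, map_mul, Complex.conj_conj, Complex.conj_ofNat, map_one]
    congr 1
    ring
  have hx1 : x + B₀ * conj x = 2 * k := by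
    rw [cx, hx, ← mul_div_assoc, ← add_div, div_eq_iff hden]
    ring
  have hx2 : conj x + conj B₀ * x = 2 * conj k := by
    rw [cx, hx, ← mul_div_assoc, ← add_div, div_eq_iff hden]
    ring
  set α := E.a * conj E.b with hα
  have cα : conj α = E.b * conj E.a := by
    rw [hα, map_mul, Complex.conj_conj]
    ring
  set K : ℂ := α * x ^ 2 + (E.a * conj E.a + E.b * conj E.b) * (x * conj x) +
    conj α * conj x ^ 2 - 2 * α * k * x - 2 * conj α * conj k * conj x + α * B₀ +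
    conj α * conj B₀ - (E.a * conj E.a + E.b * conj E.b) with hK
  refine ⟨E.pt x, K.re, fun A B C h => ?_⟩
  obtain ⟨z1, z2, z3, s1, s2, l, rfl, rfl, rfl, T, hs1, hs2⟩ := h.tri M
  refine ⟨centre_exists E T, fun N hN => ?_⟩
  have e := power_formula E T hN x
  have cs1 : conj s1 = 2 * conj k + B₀ * conj l := by
    rw [hs1, hB₀]
    simp only [map_add, map_sub, map_mul, map_pow, Complex.conj_conj, Complex.conj_ofNat]
  have cs2 : conj s2 = conj B₀ + 2 * k * conj l := by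
    rw [hs2, hB₀]
    simp only [map_add, map_sub, map_mul, map_pow, Complex.conj_conj, Complex.conj_ofNat]
  rw [← cB₀] at hs1
  rw [← hB₀] at hs2
  have e2 : ((‖E.pt x - N‖ ^ 2 - ‖E.pt z1 - N‖ ^ 2 : ℝ) : ℂ) = K := by
    rw [e, cs1, cs2, ← cα, ← hα, hs1, hs2, hK]
    linear_combination (-α * l) * hx2 - (conj α * conj l) * hx1
  have e3 := congrArg Complex.re e2
  rw [Complex.ofReal_re] at e3
  exact e3

/-- the centre of the Euler circle and the circumcentre -/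
theorem euler_centre {A B C N : ℂ} :
    IsCentre ((B + C) / 2) ((C + A) / 2) ((A + B) / 2) N ↔ IsCentre A B C (A + B + C - 2 * N) := by
  have e : ∀ X Y Z : ℂ, ‖(Y + Z) / 2 - N‖ = ‖X - (X + Y + Z - 2 * N)‖ / 2 := by
    intro X Y Z
    have : (Y + Z) / 2 - N = -(1 / 2 : ℂ) * (X - (X + Y + Z - 2 * N)) := by ring
    rw [this, norm_mul, norm_neg]
    have h5 : ‖(1 / 2 : ℂ)‖ = 1 / 2 := by norm_num
    rw [h5]
    ring
  have e1 := e A B C
  have e2 := e B C A
  have e3 := e C A B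
  rw [show B + C + A - 2 * N = A + B + C - 2 * N by ring] at e2
  rw [show C + A + B - 2 * N = A + B + C - 2 * N by ring] at e3
  unfold IsCentre
  rw [e1, e2, e3]
  constructor
  · rintro ⟨h1, h2⟩
    exact ⟨by linarith, by linarith⟩
  · rintro ⟨h1, h2⟩
    exact ⟨by linarith, by linarith⟩

/-- the value of the linear form -/
noncomputable def lin (E : Ellipse) (B₀ k Q : ℂ) : ℂ :=
  E.a * conj E.b * (conj B₀ * Q - conj Q) +
    (E.a * conj E.a + E.b * conj E.b) * conj B₀ * (2 * conj k + conj Q)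

/-- the value of the constant term -/
noncomputable def cst (E : Ellipse) (B₀ k Q : ℂ) : ℂ :=
  E.a * conj E.b * (2 * k * Q + Q ^ 2) + E.b * conj E.a * (2 * conj k * conj Q + conj Q ^ 2) +
    (E.a * conj E.a + E.b * conj E.b) *
      ((2 * k + Q) * (2 * conj k + conj Q) + B₀ * conj B₀ - 1)

theorem cst_conj (E : Ellipse) (B₀ k Q : ℂ) : conj (cst E B₀ k Q) = cst E B₀ k Q := by
  unfold cst
  simp only [map_add, map_sub, map_mul, map_pow, Complex.conj_conj, Complex.conj_ofNat, map_one]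
  ring

/-- the power with respect to the Euler circle in the model -/
theorem euler_power {z1 z2 z3 s1 s2 l B₀ : ℂ}
    (T : Tri z1 z2 z3 s1 s2 l) (hs1 : s1 = 2 * k + conj B₀ * l) (hs2 : s2 = B₀ + 2 * conj k * l)
    {N : ℂ} (hN : IsCentre ((E.pt z2 + E.pt z3) / 2) ((E.pt z3 + E.pt z1) / 2)
      ((E.pt z1 + E.pt z2) / 2) N) (Q : ℂ) :
    ((4 * (‖E.pt (-Q / 2) - N‖ ^ 2 - ‖(E.pt z2 + E.pt z3) / 2 - N‖ ^ 2) : ℝ) : ℂ) =
      cst E B₀ k Q + l * lin E B₀ k Q + conj l * conj (lin E B₀ k Q) := by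
  have hN' := euler_centre.1 hN
  set O := E.pt z1 + E.pt z2 + E.pt z3 - 2 * N with hO
  have h5 : ‖(1 / 2 : ℂ)‖ = 1 / 2 := by norm_num
  have e1 : ‖(E.pt z2 + E.pt z3) / 2 - N‖ = ‖E.pt z1 - O‖ / 2 := by
    have : (E.pt z2 + E.pt z3) / 2 - N = -(1 / 2 : ℂ) * (E.pt z1 - O) := by rw [hO]; ring
    rw [this, norm_mul, norm_neg, h5]
    ring
  have e2 : ‖E.pt (-Q / 2) - N‖ = ‖E.pt (s1 + Q) - O‖ / 2 := by
    have : E.pt (-Q / 2) - N = -(1 / 2 : ℂ) * (E.pt (s1 + Q) - O) := by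
      rw [hO, T.e1]
      unfold Ellipse.pt
      simp only [map_add, map_neg, map_div₀, Complex.conj_ofNat]
      ring
    rw [this, norm_mul, norm_neg, h5]
    ring
  have e3 : 4 * (‖E.pt (-Q / 2) - N‖ ^ 2 - ‖(E.pt z2 + E.pt z3) / 2 - N‖ ^ 2) =
      ‖E.pt (s1 + Q) - O‖ ^ 2 - ‖E.pt z1 - O‖ ^ 2 := by
    rw [e1, e2]; ring
  rw [e3, power_formula E T hN' (s1 + Q)]
  have cs1 : conj s1 = 2 * conj k + B₀ * conj l := by
    rw [hs1]
    simp only [map_add, map_mul, Complex.conj_conj, Complex.conj_ofNat]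
  have cs2 : conj s2 = conj B₀ + 2 * k * conj l := by
    rw [hs2]
    simp only [map_add, map_mul, Complex.conj_conj, Complex.conj_ofNat]
  have hl := mul_conj_of_norm T.nl
  rw [map_add, cs1, cs2, hs1, hs2]
  unfold cst lin
  simp only [map_add, map_sub, map_mul, Complex.conj_conj, Complex.conj_ofNat]
  linear_combination ((E.a * conj E.a + E.b * conj E.b) * B₀ * conj B₀ -
    E.a * conj E.b * B₀ - E.b * conj E.a * conj B₀) * hl

end Pool.Agent.Q139.Pon
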