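import Pool.Agent.Q139.Pon.Core

/-!
# Tangency in the model
-/

set_option autoImplicit false

namespace Pool.Agent.Q139.Pon

open ComplexConjugate

theorem Ellipse.disc_ne (E : Ellipse) : E.a * conj E.a - E.b * conj E.b ≠ 0 := by
  rw [← norm_sq_eq, ← norm_sq_eq, ← Complex.ofReal_sub, Ne, Complex.ofReal_eq_zero]
  have := E.lt
  nlinarith [norm_nonneg E.b]

theorem Ellipse.pt_injective (E : Ellipse) : Function.Injective E.pt := by
  intro x y h
  unfold Ellipse.pt at h
  have h1 : E.a * (x - y) = - (E.b * conj (x - y)) := by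
    rw [map_sub]
    linear_combination h
  by_contra hne
  have h2 := congrArg norm h1
  rw [norm_neg, norm_mul, norm_mul, RCLike.norm_conj] at h2
  have h3 : 0 < ‖x - y‖ := norm_pos_iff.2 (sub_ne_zero.2 hne)
  have h4 := mul_right_cancel₀ h3.ne' h2
  have := E.lt
  linarith

/-- the coordinates of the ellipse `E'` in the model in which `E` is the unit circle -/
structure Model (E E' : Ellipse) (u v k : ℂ) : Prop where
  ha : E'.a = E.a * u + E.b * conj v
  hb : E'.b = E.a * v + E.b * conj u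
  hc : E'.c = E.a * k + E.b * conj k + E.c

theorem model_exists (E E' : Ellipse) : ∃ u v k, Model E E' u v k := by
  have hΔ := E.disc_ne
  refine ⟨(conj E.a * E'.a - E.b * conj E'.b) / (E.a * conj E.a - E.b * conj E.b),
    (conj E.a * E'.b - E.b * conj E'.a) / (E.a * conj E.a - E.b * conj E.b),
    (conj E.a * (E'.c - E.c) - E.b * conj (E'.c - E.c)) / (E.a * conj E.a - E.b * conj E.b),
    ?_, ?_, ?_⟩
  · simp only [map_div₀, map_sub, map_mul, Complex.conj_conj]
    rw [mul_comm (conj E.a) E.a, mul_comm (conj E.b) E.b, ← mul_div_assoc, ← mul_div_assoc,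
      ← add_div, eq_div_iff hΔ]
    ring
  · simp only [map_div₀, map_sub, map_mul, Complex.conj_conj]
    rw [mul_comm (conj E.a) E.a, mul_comm (conj E.b) E.b, ← mul_div_assoc, ← mul_div_assoc,
      ← add_div, eq_div_iff hΔ]
    ring
  · simp only [map_div₀, map_sub, map_mul, Complex.conj_conj]
    rw [mul_comm (conj E.a) E.a, mul_comm (conj E.b) E.b, ← mul_div_assoc, ← mul_div_assoc,
      ← add_div, ← sub_eq_iff_eq_add, eq_div_iff hΔ]
    ring

variable {E E' : Ellipse} {u v k : ℂ}

theorem Model.pt (M : Model E E' u v k) (w : ℂ) : E'.pt w = E.pt (u * w + v * conj w + k) := by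
  unfold Ellipse.pt
  rw [M.ha, M.hb, M.hc]
  simp only [map_add, map_mul, Complex.conj_conj]
  ring

theorem Model.lt (M : Model E E' u v k) : ‖v‖ < ‖u‖ := by
  have h1 : ((‖E'.a‖ ^ 2 - ‖E'.b‖ ^ 2 : ℝ) : ℂ) =
      ((‖E.a‖ ^ 2 - ‖E.b‖ ^ 2 : ℝ) : ℂ) * ((‖u‖ ^ 2 - ‖v‖ ^ 2 : ℝ) : ℂ) := by
    rw [Complex.ofReal_sub, Complex.ofReal_sub, Complex.ofReal_sub, norm_sq_eq, norm_sq_eq,
      norm_sq_eq, norm_sq_eq, norm_sq_eq, norm_sq_eq, M.ha, M.hb]
    simp only [map_add, map_mul, Complex.conj_conj]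
    ring
  have h2 : ‖E'.a‖ ^ 2 - ‖E'.b‖ ^ 2 = (‖E.a‖ ^ 2 - ‖E.b‖ ^ 2) * (‖u‖ ^ 2 - ‖v‖ ^ 2) := by
    exact_mod_cast h1
  have h3 : 0 < ‖E'.a‖ ^ 2 - ‖E'.b‖ ^ 2 := by
    have := E'.lt
    nlinarith [norm_nonneg E'.b]
  have h4 : 0 < ‖E.a‖ ^ 2 - ‖E.b‖ ^ 2 := by
    have := E.lt
    nlinarith [norm_nonneg E.b]
  rw [h2] at h3
  have h5 := (pos_iff_pos_of_mul_pos h3).1 h4
  by_contra hcon
  push Not at hcon
  nlinarith [norm_nonneg u]

/-- the line through two points of the unit circle -/
theorem line_iff {z1 z2 x : ℂ} (n1 : ‖z1‖ = 1) (n2 : ‖z2‖ = 1) (h : z1 ≠ z2) :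
    (∃ t : ℝ, x = z1 + t * (z2 - z1)) ↔ x + z1 * z2 * conj x = z1 + z2 := by
  have a1 := mul_conj_of_norm n1
  have a2 := mul_conj_of_norm n2
  have hne : z2 - z1 ≠ 0 := sub_ne_zero.2 (Ne.symm h)
  constructor
  · rintro ⟨t, rfl⟩
    simp only [map_add, map_mul, map_sub, Complex.conj_ofReal]
    linear_combination (z2 - t * z2) * a1 + t * z1 * a2
  · intro hx
    have hne' : conj z2 - conj z1 ≠ 0 := by
      rw [← map_sub]
      exact (map_ne_zero _).2 hne
    have hr : conj ((x - z1) / (z2 - z1)) = (x - z1) / (z2 - z1) := by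
      rw [map_div₀, map_sub, map_sub, div_eq_div_iff hne' hne]
      have h1 : z1 * z2 ≠ 0 := by
        refine mul_ne_zero ?_ ?_
        · intro h0; rw [h0] at a1; simp at a1
        · intro h0; rw [h0] at a2; simp at a2
      refine mul_left_cancel₀ h1 ?_
      linear_combination (z2 - z1) * hx + (-(z2 ^ 2) + x * z2) * a1 + (-(x * z1) + z1 ^ 2) * a2 +
        0 * a1
    rw [Complex.conj_eq_iff_real] at hr
    obtain ⟨t, ht⟩ := hr
    refine ⟨t, ?_⟩
    rw [← ht, div_mul_cancel₀ _ hne]
    ring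

theorem e_ne {s : ℂ} (M : Model E E' u v k) (hs : ‖s‖ = 1) : u + s * conj v ≠ 0 := by
  intro h
  have h1 : u = -(s * conj v) := by linear_combination h
  have h2 : ‖u‖ = ‖v‖ := by
    rw [h1, norm_neg, norm_mul, hs, RCLike.norm_conj, one_mul]
  have := M.lt
  linarith

/-- tangency is a quadratic condition -/
theorem tangent_iff (M : Model E E' u v k) {z1 z2 : ℂ} (n1 : ‖z1‖ = 1) (n2 : ‖z2‖ = 1)
    (h : z1 ≠ z2) : Tangent E' (E.pt z1) (E.pt z2) ↔
      (z1 + z2 - k - z1 * z2 * conj k) ^ 2 =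
        4 * (u + z1 * z2 * conj v) * (v + z1 * z2 * conj u) := by
  have a1 := mul_conj_of_norm n1
  have a2 := mul_conj_of_norm n2
  set s := z1 * z2 with hs
  have ns : ‖s‖ = 1 := by rw [hs, norm_mul, n1, n2, one_mul]
  have as := mul_conj_of_norm ns
  set e := u + s * conj v with he
  set τ := z1 + z2 - k - s * conj k with hτ
  have ene : e ≠ 0 := e_ne M ns
  have cene : conj e ≠ 0 := (map_ne_zero _).2 ene
  have he' : v + s * conj u = s * conj e := by
    rw [he]
    simp only [map_add, map_mul, Complex.conj_conj]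
    linear_combination (-v) * as
  have hcτ : s * conj τ = τ := by
    rw [hτ]
    simp only [map_add, map_sub, map_mul, Complex.conj_conj]
    have : s * conj s = 1 := as
    have e1 : s * conj z1 = z2 := by rw [hs]; linear_combination z2 * a1
    have e2 : s * conj z2 = z1 := by rw [hs]; linear_combination z1 * a2
    linear_combination e1 + e2 - k * this
  -- the points of the curve on the line
  have hiff : ∀ z, (z ∈ E'.curve ∧ ∃ t : ℝ, z = E.pt z1 + t * (E.pt z2 - E.pt z1)) ↔
      ∃ w : ℂ, w * conj w = 1 ∧ z = E'.pt w ∧ e * w + s * conj e * conj w = τ := by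
    intro z
    constructor
    · rintro ⟨⟨w, hw, rfl⟩, t, ht⟩
      refine ⟨w, mul_conj_of_norm hw, rfl, ?_⟩
      rw [M.pt] at ht
      have h1 : E.pt (u * w + v * conj w + k) = E.pt (z1 + t * (z2 - z1)) := by
        rw [ht]
        unfold Ellipse.pt
        simp only [map_add, map_mul, map_sub, Complex.conj_ofReal]
        ring
      have h2 := (line_iff n1 n2 h).1 ⟨t, E.pt_injective h1⟩
      simp only [map_add, map_mul, Complex.conj_conj] at h2
      rw [← he', he, hτ]
      linear_combination h2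
    · rintro ⟨w, hw, rfl, h1⟩
      refine ⟨⟨w, norm_of_mul_conj hw, rfl⟩, ?_⟩
      have h2 : (u * w + v * conj w + k) + z1 * z2 * conj (u * w + v * conj w + k) = z1 + z2 := by
        simp only [map_add, map_mul, Complex.conj_conj]
        rw [← he', he, hτ] at h1
        linear_combination h1
      obtain ⟨t, ht⟩ := (line_iff n1 n2 h).2 h2
      refine ⟨t, ?_⟩
      rw [M.pt, ht]
      unfold Ellipse.pt
      simp only [map_add, map_mul, map_sub, Complex.conj_ofReal]
      ring
  rw [he']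
  constructor
  · rintro ⟨z, hz, huniq⟩
    obtain ⟨w, hw, rfl, h1⟩ := (hiff z).1 hz
    have h2 := huniq (E'.pt (s * conj e * conj w / e)) ((hiff _).2
      ⟨s * conj e * conj w / e, by
        simp only [map_div₀, map_mul, Complex.conj_conj]
        field_simp
        linear_combination (w * conj w) * as + hw, rfl, by
        simp only [map_div₀, map_mul, Complex.conj_conj]
        field_simp
        linear_combination h1 + e * w * as⟩)
    have h3 := E'.pt_injective h2
    rw [div_eq_iff ene] at h3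
    have h4 : τ = 2 * (e * w) := by linear_combination -h1 + h3
    have h5 : τ = 2 * (s * conj e * conj w) := by linear_combination -h1 - h3
    linear_combination τ * h5 + 2 * (s * conj e * conj w) * h4 + 4 * e * s * conj e * hw
  · intro hsq
    have hns : s ≠ 0 := by
      intro h0
      rw [h0] at as
      simp at as
    have h1 : τ * conj τ = 4 * e * conj e := by
      refine mul_left_cancel₀ hns ?_
      linear_combination hsq + τ * hcτ
    refine ⟨E'.pt (τ / (2 * e)), (hiff _).2 ⟨τ / (2 * e), ?_, rfl, ?_⟩, ?_⟩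
    · simp only [map_div₀, map_mul, Complex.conj_ofNat]
      field_simp
      linear_combination h1
    · simp only [map_div₀, map_mul, Complex.conj_ofNat]
      field_simp
      linear_combination hcτ
    · intro z hz
      obtain ⟨w, hw, rfl, h2⟩ := (hiff z).1 hz
      have h3 : (2 * e * w - τ) ^ 2 = 0 := by
        linear_combination (4 * e * w) * h2 + hsq - 4 * e * s * conj e * hw
      have h4 : 2 * e * w - τ = 0 := pow_eq_zero_iff (two_ne_zero) |>.1 h3
      congr 1
      rw [eq_div_iff (mul_ne_zero two_ne_zero ene)]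
      linear_combination h4

/-- the symmetric functions of the vertices of a Poncelet triangle -/
theorem sym_of_tangent {z1 z2 z3 s1 s2 l : ℂ} (T : Tri z1 z2 z3 s1 s2 l)
    (t12 : (z1 + z2 - k - z1 * z2 * conj k) ^ 2 =
        4 * (u + z1 * z2 * conj v) * (v + z1 * z2 * conj u))
    (t23 : (z2 + z3 - k - z2 * z3 * conj k) ^ 2 =
        4 * (u + z2 * z3 * conj v) * (v + z2 * z3 * conj u))
    (t31 : (z3 + z1 - k - z3 * z1 * conj k) ^ 2 =
        4 * (u + z3 * z1 * conj v) * (v + z3 * z1 * conj u)) :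
    s1 = 2 * k + (conj k ^ 2 - 4 * conj u * conj v) * l ∧
      s2 = (k ^ 2 - 4 * u * v) + 2 * conj k * l := by
  have hl : l ≠ 0 := by
    intro h
    have := T.nl
    rw [h] at this
    simp at this
  set c2 : ℂ := (s1 ^ 2 - s2) - 2 * (s1 - k) * s1 + ((s1 - k) ^ 2 + 2 * l * conj k - 4 * u * v)
    with hc2
  set c1 : ℂ := (l - s1 * s2) + 2 * (s1 - k) * s2 - 2 * (s1 - k) * l * conj k -
    4 * l * (u * conj u + v * conj v) with hc1
  set c0 : ℂ := s1 * l - 2 * (s1 - k) * l + l ^ 2 * conj k ^ 2 - 4 * l ^ 2 * conj u * conj v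
    with hc0
  have key : ∀ z x y : ℂ, z * x * y = l → z + x + y = s1 → z ^ 3 - s1 * z ^ 2 + s2 * z - l = 0 →
      (x + y - k - x * y * conj k) ^ 2 = 4 * (u + x * y * conj v) * (v + x * y * conj u) →
      c2 * z ^ 2 + c1 * z + c0 = 0 := by
    intro z x y h1 h2 h3 h4
    have h5 : x + y = s1 - z := by linear_combination h2
    rw [h5] at h4
    have h6 : ((s1 - z - k) * z - l * conj k) ^ 2 =
        4 * (u * z + l * conj v) * (v * z + l * conj u) := by
      rw [← h1]
      linear_combination z ^ 2 * h4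
    rw [hc2, hc1, hc0]
    linear_combination h6 - (z + s1 - 2 * (s1 - k)) * h3
  obtain ⟨g2, -, g0⟩ := quad3 T.h12 T.h13 T.h23
    (key z1 z2 z3 (by rw [T.e3]) (by rw [T.e1]) T.cub1 t23)
    (key z2 z3 z1 (by rw [T.e3]; ring) (by rw [T.e1]; ring) T.cub2 t31)
    (key z3 z1 z2 (by rw [T.e3]; ring) (by rw [T.e1]; ring) T.cub3 t12)
  constructor
  · have h1 : l * (s1 - (2 * k + (conj k ^ 2 - 4 * conj u * conj v) * l)) = 0 := by
      rw [hc0] at g0
      linear_combination -g0
    have := (mul_eq_zero.1 h1).resolve_left hl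
    linear_combination this
  · rw [hc2] at g2
    linear_combination -g2

end Pool.Agent.Q139.Pon
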